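import Pool.Agent.Helper40.AC.Stmts

open scoped Matrix

namespace Pool.Agent.Helper40.AC

theorem gram_ok : S_GRAM := by
  intro ι κ _ _ _ _ D ε hs hi hD hinj
  have hDt : ε * Dᵀ = Dᵀ := by
    have := congrArg Matrix.transpose hD
    rwa [Matrix.transpose_mul, hs] at this
  obtain ⟨G, hG⟩ : ∃ G, G = Dᵀ * D + (1 - ε) := ⟨_, rfl⟩
  rw [← hG]
  have hGt : Gᵀ = G := by
    rw [hG]
    simp [Matrix.transpose_mul, hs]
  have h1e : (1 - ε) * (1 - ε) = 1 - ε := by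
    rw [Matrix.sub_mul, Matrix.mul_sub, Matrix.mul_sub]
    simp [hi]
  have hD1 : D * (1 - ε) = 0 := by rw [Matrix.mul_sub, hD]; simp
  have hG1 : G * (1 - ε) = 1 - ε := by
    rw [hG, Matrix.add_mul, Matrix.mul_assoc, hD1, h1e]; simp
  have hdet : G.det ≠ 0 := by
    intro h0
    obtain ⟨v, hv, hGv⟩ := Matrix.exists_mulVec_eq_zero_iff.2 h0
    have h1 : v ⬝ᵥ (G *ᵥ v) = (D *ᵥ v) ⬝ᵥ (D *ᵥ v) + ((1 - ε) *ᵥ v) ⬝ᵥ ((1 - ε) *ᵥ v) := by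
      have e1 : (1 - ε) *ᵥ v = (1 - ε) *ᵥ ((1 - ε) *ᵥ v) := by
        rw [Matrix.mulVec_mulVec, h1e]
      have e2 : (1 - ε)ᵀ = 1 - ε := by simp [hs]
      rw [hG, Matrix.add_mulVec, dotProduct_add]
      congr 1
      · rw [← Matrix.mulVec_mulVec, Matrix.dotProduct_mulVec, Matrix.vecMul_transpose]
      · conv_lhs => rw [e1]
        rw [Matrix.dotProduct_mulVec, ← e2, Matrix.vecMul_transpose, e2]
    rw [hGv, dotProduct_zero] at h1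
    have p1 : 0 ≤ (D *ᵥ v) ⬝ᵥ (D *ᵥ v) := by
      simpa using dotProduct_self_star_nonneg (D *ᵥ v)
    have p2 : 0 ≤ ((1 - ε) *ᵥ v) ⬝ᵥ ((1 - ε) *ᵥ v) := by
      simpa using dotProduct_self_star_nonneg ((1 - ε) *ᵥ v)
    have q1 : (D *ᵥ v) ⬝ᵥ (D *ᵥ v) = 0 := by linarith
    have q2 : ((1 - ε) *ᵥ v) ⬝ᵥ ((1 - ε) *ᵥ v) = 0 := by linarith
    have r1 : D *ᵥ v = 0 := by simpa using dotProduct_self_eq_zero.1 q1
    have r2 : (1 - ε) *ᵥ v = 0 := by simpa using dotProduct_self_eq_zero.1 q2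
    have r3 : ε *ᵥ v = v := by
      rw [Matrix.sub_mulVec, Matrix.one_mulVec, sub_eq_zero] at r2
      exact r2.symm
    exact hv (hinj v r3 r1)
  have hu : IsUnit G.det := isUnit_iff_ne_zero.2 hdet
  have hinv1 : G⁻¹ * G = 1 := Matrix.nonsing_inv_mul G hu
  have hGi : G⁻¹ * (1 - ε) = 1 - ε := by
    calc G⁻¹ * (1 - ε) = G⁻¹ * (G * (1 - ε)) := by rw [hG1]
      _ = (G⁻¹ * G) * (1 - ε) := by rw [Matrix.mul_assoc]
      _ = 1 - ε := by rw [hinv1, Matrix.one_mul]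
  have hDD : Dᵀ * D = G - (1 - ε) := by rw [hG]; abel
  have hPD : (D * G⁻¹ * Dᵀ) * D = D := by
    rw [Matrix.mul_assoc, hDD, Matrix.mul_sub, Matrix.mul_assoc, hinv1, Matrix.mul_one,
      Matrix.mul_assoc, hGi, hD1, sub_zero]
  have hGit : (G⁻¹)ᵀ = G⁻¹ := by rw [Matrix.transpose_nonsing_inv, hGt]
  refine ⟨hdet, ?_, ?_, hPD, ?_⟩
  · rw [Matrix.transpose_mul, Matrix.transpose_mul, Matrix.transpose_transpose, hGit,
      Matrix.mul_assoc]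
  · calc (D * G⁻¹ * Dᵀ) * (D * G⁻¹ * Dᵀ) = ((D * G⁻¹ * Dᵀ) * D) * (G⁻¹ * Dᵀ) := by
          simp only [Matrix.mul_assoc]
      _ = D * G⁻¹ * Dᵀ := by rw [hPD]; simp only [Matrix.mul_assoc]
  · rw [Matrix.mul_assoc, Matrix.trace_mul_comm, Matrix.mul_assoc, hDD, Matrix.mul_sub, hinv1, hGi]
    simp

end Pool.Agent.Helper40.AC
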