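import Pool.Agent.Helper40.AC.Stmts
import Mathlib.RingTheory.SimpleModule.InjectiveProjective

/-! # Packet AC P09: polynomial rings over `ℂ` have finite global dimension -/

set_option autoImplicit false

open scoped TensorProduct

namespace Pool.Agent.Helper40.AC

/-- The kernel of a surjection from a projective module is projective if this holds for one
surjection from a projective module. -/
theorem ker_proj {R M F T : Type} [CommRing R] [AddCommGroup M] [Module R M] [AddCommGroup F]
    [Module R F] [AddCommGroup T] [Module R T] (hF : Module.Projective R F)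
    (hT : Module.Projective R T) (π : F →ₗ[R] M) (hπ : Function.Surjective π) (a : T →ₗ[R] M)
    (ha : Function.Surjective a) (hN : Module.Projective R (LinearMap.ker a)) :
    Module.Projective R (LinearMap.ker π) := by
  obtain ⟨φ, hφ⟩ := Module.projective_lifting_property a π ha
  obtain ⟨ψ, hψ⟩ := Module.projective_lifting_property π a hπ
  have hφ' : ∀ f, a (φ f) = π f := fun f => LinearMap.congr_fun hφ f
  have hψ' : ∀ f, π (ψ f) = a f := fun f => LinearMap.congr_fun hψ f
  have h1 : ∀ k ∈ LinearMap.ker π, φ k ∈ LinearMap.ker a := fun k hk => by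
    rw [LinearMap.mem_ker, hφ', LinearMap.mem_ker.1 hk]
  have h2 : ∀ x : LinearMap.ker a × F, ψ x.1 + x.2 - ψ (φ x.2) ∈ LinearMap.ker π := fun x => by
    rw [LinearMap.mem_ker, map_sub, map_add, hψ', hψ', hφ', LinearMap.mem_ker.1 x.1.2]
    simp
  let i : LinearMap.ker π →ₗ[R] (LinearMap.ker a × F) :=
    LinearMap.prod (φ.restrict h1) (LinearMap.ker π).subtype
  let g : (LinearMap.ker a × F) →ₗ[R] F :=
    ψ ∘ₗ (LinearMap.ker a).subtype ∘ₗ LinearMap.fst R _ _ + LinearMap.snd R _ _ -
      ψ ∘ₗ φ ∘ₗ LinearMap.snd R _ _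
  let r : (LinearMap.ker a × F) →ₗ[R] LinearMap.ker π := g.codRestrict _ h2
  refine Module.Projective.of_split i r ?_
  refine LinearMap.ext fun k => Subtype.ext ?_
  change ψ (φ k) + (k : F) - ψ (φ k) = k
  simp

theorem HasPD.congr {R : Type} [CommRing R] (n : ℕ) : ∀ (M M' : Type) [AddCommGroup M]
    [Module R M] [AddCommGroup M'] [Module R M'], (M ≃ₗ[R] M') → HasPD R n M → HasPD R n M' := by
  induction n with
  | zero =>
    intro M M' _ _ _ _ e h
    have : Module.Projective R M := h
    exact Module.Projective.of_equiv' e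
  | succ n ih =>
    intro M M' _ _ _ _ e h F _ _ hF π hπ
    have h1 := h F hF (e.symm.toLinearMap ∘ₗ π) (e.symm.surjective.comp hπ)
    refine ih _ _ (LinearEquiv.ofEq _ _ ?_) h1
    ext x
    simp

section Step

variable {R A M : Type} [CommRing R] [CommRing A] [Algebra R A] [AddCommGroup M] [Module R M]
  [Module A M] [IsScalarTower R A M] (x : A)

/-- Multiplication by `x` as an `R`-linear map. -/
def mulX : M →ₗ[R] M where
  toFun m := x • m
  map_add' := smul_add x
  map_smul' r m := by
    simp only [RingHom.id_apply]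
    rw [← algebraMap_smul A r m, ← algebraMap_smul A r (x • m), smul_smul, smul_smul, mul_comm]

/-- The contraction on the basis. -/
noncomputable def gK (k : ℕ) : M →ₗ[R] (A ⊗[R] M) :=
  ∑ i ∈ Finset.range k, (TensorProduct.mk R A M (x ^ (k - 1 - i))) ∘ₗ (mulX x) ^ i

theorem mulX_pow (i : ℕ) (m : M) : ((mulX (R := R) x) ^ i) m = x ^ i • m := by
  induction i with
  | zero => simp
  | succ i ih =>
    rw [pow_succ', Module.End.mul_apply, ih, pow_succ', mul_smul]
    rfl

theorem gK_apply (k : ℕ) (m : M) :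
    gK (R := R) x k m = ∑ i ∈ Finset.range k, (x ^ (k - 1 - i)) ⊗ₜ[R] (x ^ i • m) := by
  rw [gK, LinearMap.sum_apply]
  refine Finset.sum_congr rfl fun i _ => ?_
  simp [mulX_pow]

/-- The first map of the resolution. -/
noncomputable def dD : (A ⊗[R] M) →ₗ[A] (A ⊗[R] M) :=
  x • (LinearMap.id : (A ⊗[R] M) →ₗ[A] (A ⊗[R] M)) - (mulX (R := R) (M := M) x).baseChange A

/-- The second map of the resolution. -/
noncomputable def aA' : (A ⊗[R] M) →ₗ[A] M := (LinearMap.id : M →ₗ[R] M).liftBaseChange A

theorem dD_tmul (p : A) (m : M) :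
    dD (R := R) x (p ⊗ₜ[R] m) = (x * p) ⊗ₜ[R] m - p ⊗ₜ[R] (x • m) := by
  simp [dD, mulX, TensorProduct.smul_tmul']

theorem aA'_tmul (p : A) (m : M) : aA' (R := R) (p ⊗ₜ[R] m) = p • m := by
  simp [aA']

theorem a_surj : Function.Surjective (aA' (R := R) (A := A) (M := M)) := fun m =>
  ⟨1 ⊗ₜ[R] m, by rw [aA'_tmul, one_smul]⟩

theorem ad (t : A ⊗[R] M) : aA' (R := R) (dD (R := R) x t) = 0 := by
  induction t with
  | zero => simp
  | add a b ha hb => rw [map_add, map_add, ha, hb, add_zero]
  | tmul p m =>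
    rw [dD_tmul, map_sub, aA'_tmul, aA'_tmul, smul_smul, mul_comm, sub_self]

variable (b : Module.Basis ℕ R A) (hb : ∀ k, b k = x ^ k)

/-- The contraction. -/
noncomputable def hH : (A ⊗[R] M) →ₗ[R] (A ⊗[R] M) :=
  TensorProduct.lift (b.constr R (fun k => gK (R := R) (M := M) x k))

include hb

theorem hH_tmul (k : ℕ) (m : M) : hH (M := M) x b ((x ^ k) ⊗ₜ[R] m) =
    ∑ i ∈ Finset.range k, (x ^ (k - 1 - i)) ⊗ₜ[R] (x ^ i • m) := by
  rw [hH, TensorProduct.lift.tmul, ← hb k, Module.Basis.constr_basis, gK_apply]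

theorem hd (t : A ⊗[R] M) : hH x b (dD (R := R) x t) = t := by
  have h1 : hH x b ∘ₗ (dD (R := R) x).restrictScalars R =
      (LinearMap.id : (A ⊗[R] M) →ₗ[R] (A ⊗[R] M)) := by
    refine TensorProduct.ext (b.ext fun k => LinearMap.ext fun m => ?_)
    change hH x b (dD (R := R) x ((b k) ⊗ₜ[R] m)) = (b k) ⊗ₜ[R] m
    rw [hb k, dD_tmul, ← pow_succ', map_sub, hH_tmul x b hb, hH_tmul x b hb,
      Finset.sum_range_succ']
    simp only [smul_smul, ← pow_succ]
    rw [Finset.sum_congr rfl (g := fun i => (x ^ (k - 1 - i)) ⊗ₜ[R] (x ^ (i + 1) • m))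
      (fun i hi => by
        have : k + 1 - 1 - (i + 1) = k - 1 - i := by omega
        rw [this])]
    simp
  exact LinearMap.congr_fun h1 t

theorem dh (t : A ⊗[R] M) : dD (R := R) x (hH x b t) = t - 1 ⊗ₜ[R] (aA' (R := R) t) := by
  have h1 : (dD (R := R) x).restrictScalars R ∘ₗ hH x b =
      (LinearMap.id : (A ⊗[R] M) →ₗ[R] (A ⊗[R] M)) -
        (TensorProduct.mk R A M 1) ∘ₗ (aA' (R := R) (A := A) (M := M)).restrictScalars R := by
    refine TensorProduct.ext (b.ext fun k => LinearMap.ext fun m => ?_)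
    change dD (R := R) x (hH x b ((b k) ⊗ₜ[R] m)) =
      (b k) ⊗ₜ[R] m - 1 ⊗ₜ[R] (aA' (R := R) ((b k) ⊗ₜ[R] m))
    rw [hb k, hH_tmul x b hb, map_sum, aA'_tmul]
    simp only [dD_tmul, smul_smul, ← pow_succ']
    have h2 : ∀ i ∈ Finset.range k, ((x ^ (k - 1 - i + 1)) ⊗ₜ[R] (x ^ i • m) -
        (x ^ (k - 1 - i)) ⊗ₜ[R] (x ^ (i + 1) • m) : A ⊗[R] M) =
        (fun i => (x ^ (k - i)) ⊗ₜ[R] (x ^ i • m)) i -
        (fun i => (x ^ (k - i)) ⊗ₜ[R] (x ^ i • m)) (i + 1) := by
      intro i hi
      have hi' := Finset.mem_range.1 hi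
      have e1 : k - 1 - i + 1 = k - i := by omega
      have e2 : k - 1 - i = k - (i + 1) := by omega
      simp only
      rw [e1, e2]
    rw [Finset.sum_congr rfl h2, Finset.sum_range_sub']
    simp
  exact LinearMap.congr_fun h1 t

/-- The kernel of the action map is isomorphic to `A ⊗ M`. -/
theorem ker_a_proj (hM : Module.Projective R M) :
    Module.Projective A (LinearMap.ker (aA' (R := R) (A := A) (M := M))) := by
  let e : (A ⊗[R] M) →ₗ[A] LinearMap.ker (aA' (R := R) (A := A) (M := M)) :=
    (dD (R := R) x).codRestrict _ (fun t => LinearMap.mem_ker.2 (ad x t))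
  have he : Function.Bijective e := by
    constructor
    · intro s t hst
      have h1 : dD (R := R) x s = dD (R := R) x t := congrArg Subtype.val hst
      rw [← hd x b hb s, h1, hd x b hb t]
    · rintro ⟨t, ht⟩
      refine ⟨hH x b t, Subtype.ext ?_⟩
      change dD (R := R) x (hH x b t) = t
      rw [dh x b hb, LinearMap.mem_ker.1 ht, TensorProduct.tmul_zero, sub_zero]
  exact Module.Projective.of_equiv' (LinearEquiv.ofBijective e he)

end Step

/-- A projective module over a free algebra is projective over the base. -/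
theorem proj_restrict {R A F : Type} [CommRing R] [CommRing A] [Algebra R A] [AddCommGroup F]
    [Module R F] [Module A F] [IsScalarTower R A F] [Module.Free R A]
    (hF : Module.Projective A F) : Module.Projective R F := by
  obtain ⟨s, hs⟩ := hF
  refine Module.Projective.of_split (R := R) (M := F →₀ A) (s.restrictScalars R)
    ((Finsupp.linearCombination A id).restrictScalars R) ?_
  ext f
  exact hs f

/-- The step lemma. -/
theorem pd_step {R A : Type} [CommRing R] [CommRing A] [Algebra R A] (x : A)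
    (b : Module.Basis ℕ R A) (hb : ∀ k, b k = x ^ k) (n : ℕ) :
    ∀ (M : Type) [AddCommGroup M] [Module R M] [Module A M] [IsScalarTower R A M],
      HasPD R n M → HasPD A (n + 1) M := by
  induction n with
  | zero =>
    intro M _ _ _ _ hM F _ _ hF π hπ
    have hM' : Module.Projective R M := hM
    exact ker_proj hF (inferInstance : Module.Projective A (A ⊗[R] M)) π hπ
      (aA' (R := R) (A := A) (M := M)) a_surj (ker_a_proj x b hb hM')
  | succ n ih =>
    intro M _ _ _ _ hM F _ _ hF π hπ
    letI : Module R F := Module.compHom F (algebraMap R A)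
    haveI : IsScalarTower R A F := ⟨fun r a f => by
      change (r • a) • f = algebraMap R A r • (a • f)
      rw [smul_smul, Algebra.smul_def]⟩
    haveI : Module.Free R A := Module.Free.of_basis b
    have h1 := hM F (proj_restrict (A := A) hF) (π.restrictScalars R) hπ
    refine ih (LinearMap.ker π) (HasPD.congr n _ _ ?_ h1)
    exact
      { toFun := fun y => ⟨y.1, y.2⟩
        invFun := fun y => ⟨y.1, y.2⟩
        map_add' := fun _ _ => rfl
        map_smul' := fun _ _ => rfl
        left_inv := fun _ => rfl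
        right_inv := fun _ => rfl }

theorem pdim_ok : S_PDIM := by
  intro n
  induction n with
  | zero =>
    intro M _ _
    haveI : IsSemisimpleRing (MvPolynomial (Fin 0) ℂ) :=
      (MvPolynomial.isEmptyAlgEquiv ℂ (Fin 0)).symm.toRingEquiv.isSemisimpleRing
    exact Module.projective_of_isSemisimpleRing _ M
  | succ n ih =>
    intro M _ _
    let σ := MvPolynomial.finSuccEquiv ℂ n
    letI alg : Algebra (MvPolynomial (Fin n) ℂ) (MvPolynomial (Fin (n + 1)) ℂ) :=
      (σ.symm.toRingEquiv.toRingHom.comp Polynomial.C).toAlgebra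
    letI : Module (MvPolynomial (Fin n) ℂ) M :=
      Module.compHom M (algebraMap (MvPolynomial (Fin n) ℂ) (MvPolynomial (Fin (n + 1)) ℂ))
    haveI : IsScalarTower (MvPolynomial (Fin n) ℂ) (MvPolynomial (Fin (n + 1)) ℂ) M :=
      ⟨fun r a f => by
        change (r • a) • f = algebraMap _ (MvPolynomial (Fin (n + 1)) ℂ) r • (a • f)
        rw [smul_smul, Algebra.smul_def]⟩
    let e : Polynomial (MvPolynomial (Fin n) ℂ) ≃ₗ[MvPolynomial (Fin n) ℂ]
        MvPolynomial (Fin (n + 1)) ℂ :=
      { toFun := fun p => σ.symm p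
        invFun := fun p => σ p
        map_add' := fun p q => map_add σ.symm p q
        map_smul' := fun r p => by
          rw [Polynomial.smul_eq_C_mul, map_mul]
          rfl
        left_inv := fun p => σ.apply_symm_apply p
        right_inv := fun p => σ.symm_apply_apply p }
    refine pd_step (R := MvPolynomial (Fin n) ℂ) (σ.symm Polynomial.X)
      ((Polynomial.basisMonomials _).map e) (fun k => ?_) n M (ih M)
    rw [Module.Basis.map_apply, Polynomial.coe_basisMonomials]
    change σ.symm (Polynomial.monomial k 1) = _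
    rw [← map_pow, Polynomial.monomial_one_right_eq_X_pow]

end Pool.Agent.Helper40.AC
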