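import Pool.Agent.Helper40.AC.Stmts

/-! Project AC: additional statements (dimension of a nonsingular image; final form). -/

open scoped ContDiff Topology

namespace Pool.Agent.Helper40.AC

/-- A nonsingular image of a compact manifold under a smooth embedding has the same dimension. -/
def S_DIM : Prop :=
  ∀ {ι : Type} [Fintype ι] (M : Set (ι → ℝ)) (n d : ℕ) (g : (ι → ℝ) → (ι → ℝ)),
    IsCompact M → SmoothSubmanifold M n → EmbeddingOn g M →
    ∀ z ∈ g '' M, NonsingAt (g '' M) d z → d = n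

/-- The final statement: the negated form of the approximation conjecture, for the explicit
variety `V = (S¹)⁴ × S⁴`. -/
def S_FINAL2 : Prop :=
  NonsingVariety VV 8 ∧
  ∃ M : Set (Idx → ℝ), M ⊆ VV ∧ M.Nonempty ∧ IsCompact M ∧ SmoothSubmanifold M 6 ∧
    AlgebraicBordismClass VV 6 M ∧
    ∃ δ : ℝ, 0 < δ ∧ ∀ H : (Idx → ℝ) → ℝ → (Idx → ℝ), SmoothIsotopyIn VV M H →
      (∀ x ∈ M, ∀ t ∈ Set.Icc (0 : ℝ) 1, dist (H x t) x < δ) →
      ¬ ∃ d : ℕ, NonsingLocClosed ((fun x => H x 1) '' M) d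

theorem final2 (hD : S_DIM) (hMU : S_MU) (hF : S_FINAL) : S_FINAL2 := by
  obtain ⟨h1, h2, h3, h4, h5, h6⟩ := hF
  obtain ⟨μ, -, hμ, -⟩ := hMU
  have hne : MM.Nonempty := ⟨μ 0 0, hμ 0 0⟩
  refine ⟨h1, MM, h4, hne, h2, h3, h5, 1, one_pos, ?_⟩
  intro H hH hd
  rintro ⟨d, hd'⟩
  obtain ⟨x, hx⟩ := hne
  have hmem : H x 1 ∈ (fun x => H x 1) '' MM := ⟨x, hx, rfl⟩
  have h1mem : (1 : ℝ) ∈ Set.Icc (0 : ℝ) 1 := ⟨zero_le_one, le_rfl⟩
  have hemb : EmbeddingOn (fun x => H x 1) MM := by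
    refine ⟨?_, (hH.2.2.2 1 h1mem).1, (hH.2.2.2 1 h1mem).2⟩
    have := hH.1
    exact this.comp (contDiff_id.prodMk contDiff_const).contDiffOn
      (fun y hy => ⟨hy, h1mem⟩)
  have : d = 6 := hD MM 6 d (fun x => H x 1) h2 h3 hemb _ hmem (hd'.2 _ hmem)
  subst this
  exact h6 H hH hd hd'

end Pool.Agent.Helper40.AC
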