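import Pool.Agent.Helper40.AC.Stmts

open scoped Matrix Topology
open MvPolynomial

namespace Pool.Agent.Helper40.AC

/-- The five equations of `V`. -/
noncomputable def eqV : Fin 5 → MvPolynomial Idx ℝ := fun i =>
  if h : i.1 < 4 then
    X (Sum.inl ⟨i.1, h⟩) ^ 2 + X (Sum.inr (Sum.inl ⟨i.1, h⟩)) ^ 2 - 1
  else ∑ k : Fin 5, X (Sum.inr (Sum.inr k)) ^ 2 - 1

theorem mem_VV_iff (z : Idx → ℝ) : z ∈ VV ↔ ∀ i, eval z (eqV i) = 0 := by
  constructor
  · rintro ⟨h1, h2⟩ i
    unfold eqV
    split_ifs with h
    · have := h1 ⟨i.1, h⟩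
      simp only [cc, ss] at this
      simp [this]
    · simp only [ww] at h2
      simp [h2]
  · intro h
    refine ⟨fun j => ?_, ?_⟩
    · have := h ⟨j.1, by omega⟩
      simp only [eqV, j.2, dite_true] at this
      simp only [map_sub, map_add, map_pow, eval_X, map_one] at this
      simp only [cc, ss]
      linarith
    · have := h 4
      simp only [eqV] at this
      simp only [show ¬ ((4 : Fin 5) : ℕ) < 4 by decide, dite_false] at this
      simp only [map_sub, map_sum, map_pow, eval_X, map_one] at this
      simp only [ww]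
      linarith

theorem grad_eqV (z : Idx → ℝ) (i : Fin 5) : grad (eqV i) z =
    if h : i.1 < 4 then (2 : ℝ) • norC z ⟨i.1, h⟩ else (2 : ℝ) • norS z := by
  funext a
  unfold grad eqV
  split_ifs with h
  · rcases a with a | a | a
    · by_cases ha : a = ⟨i.1, h⟩
      · subst ha
        simp [norC, cc, pderiv_X]
      · simp [norC, cc, pderiv_X, ha]
    · by_cases ha : a = ⟨i.1, h⟩
      · subst ha
        simp [norC, ss, pderiv_X]
      · simp [norC, ss, pderiv_X, ha]
    · simp [norC, pderiv_X]
  · rcases a with a | a | a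
    · simp [norS, pderiv_X]
    · simp [norS, pderiv_X]
    · simp [norS, ww, pderiv_X, Pi.single_apply]

theorem v_ok : S_V := by
  refine ⟨⟨Set.range eqV, ?_⟩, ?_⟩
  · ext z
    rw [mem_VV_iff]
    simp
  · intro z hz
    refine ⟨5, eqV, by simp, fun i y hy => (mem_VV_iff y).1 hy i, ?_, Set.univ,
      Filter.univ_mem, fun y _ hy => (mem_VV_iff y).2 hy⟩
    rw [Fintype.linearIndependent_iff]
    intro c hc
    have key : ∀ a : Idx, ∑ i : Fin 5, c i * grad (eqV i) z a = 0 := by
      intro a
      have := congrFun hc a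
      simpa using this
    have hexp : ∀ a : Idx, ∑ i : Fin 5, c i * grad (eqV i) z a =
        ∑ j : Fin 4, c j.castSucc * (2 * norC z j a) + c 4 * (2 * norS z a) := by
      intro a
      rw [Fin.sum_univ_castSucc]
      congr 1
      · refine Finset.sum_congr rfl fun j _ => ?_
        rw [grad_eqV]
        simp
      · rw [grad_eqV]
        simp
    intro i
    by_cases hi : i.1 < 4
    · obtain ⟨j, rfl⟩ : ∃ j : Fin 4, i = j.castSucc := ⟨⟨i.1, hi⟩, rfl⟩
      have k1 := key (Sum.inl j)
      have k2 := key (Sum.inr (Sum.inl j))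
      rw [hexp] at k1 k2
      simp only [norC, norS, Sum.elim_inl, Sum.elim_inr] at k1 k2
      simp at k1 k2
      have h1 := hz.1 j
      rcases k1 with k1 | k1
      · exact k1
      · rcases k2 with k2 | k2
        · exact k2
        · rw [k1, k2] at h1; norm_num at h1
    · have hi4 : i = 4 := by ext; simp; omega
      subst hi4
      have k : ∀ k : Fin 5, c 4 * ww z k = 0 := by
        intro k
        have k1 := key (Sum.inr (Sum.inr k))
        rw [hexp] at k1
        simp only [norC, norS, Sum.elim_inr] at k1
        simp at k1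
        rcases k1 with k1 | k1
        · rw [k1]; ring
        · rw [k1]; ring
      have h2 := hz.2
      have : c 4 ^ 2 * ∑ k, ww z k ^ 2 = 0 := by
        rw [Finset.mul_sum]
        refine Finset.sum_eq_zero fun a _ => ?_
        have := k a
        rw [← mul_pow, this]; ring
      rw [h2, mul_one] at this
      exact pow_eq_zero_iff (two_ne_zero) |>.1 this

end Pool.Agent.Helper40.AC
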