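import Pool.Agent.Helper40.AC.Main
import Pool.Agent.Helper40.AC.Stmts2
import Pool.Agent.Helper40.AC.Gram
import Pool.Agent.Helper40.AC.VVns
import Pool.Agent.Helper40.AC.PDim
import Pool.Agent.Helper48.AC.PD
import Pool.Agent.Helper83.AC.Ideal
import Pool.Agent.Helper83.AC.Tot
import Pool.Agent.Helper15.AC.Closed
import Pool.Agent.Helper53.AC.Hom
import Pool.Agent.Helper53.AC.NuSm
import Pool.Agent.Helper35.AC.Block
import Pool.Agent.Helper35.AC.Kron
import Pool.Agent.Helper35.AC.Along
import Pool.Agent.Helper35.AC.Dim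
import Pool.Agent.Helper73.AC.Equiv
import Pool.Agent.Helper8.AC.Trans
import Pool.Agent.Helper39.AC.Inv
import Pool.Agent.Helper69.AC.Tens
import Pool.Agent.Helper4.AC.Claim
import Pool.Agent.Helper4.AC.Poly
import Pool.Agent.Helper4.AC.GG
import Pool.Agent.Helper22.AC.Ell
import Pool.Agent.Helper22.AC.Geo2
import Pool.Agent.Helper66.AC.Contr
import Pool.Agent.Helper3.AC.Fact
import Pool.Agent.Helper59.AC.TrFact
import Pool.Agent.Helper86.AC.Theta
import Pool.Agent.Helper32.AC.Alg
import Pool.Agent.Helper97.AC.Two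
import Pool.Agent.Helper85.AC.Root
import Pool.Agent.Helper20.AC.Quat
import Pool.Agent.Helper20.AC.Phi
import Pool.Agent.Helper27.AC.Mu
import Pool.Agent.Helper18.AC.Fam
import Pool.Agent.Helper81.AC.Geo1
import Pool.Agent.Helper23.AC.MM
import Pool.Agent.Helper13.AC.Cyl
import Pool.Agent.Helper65.AC.Prod
import Pool.Agent.Helper31.AC.A0
import Pool.Agent.Helper54.AC.Jet
import Pool.Agent.Helper46.AC.WW

/-! # Project AC (MP_4c91e2_ag): everything together -/

set_option autoImplicit false

namespace Pool.Agent.Helper40.AC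

theorem all_ok : S_FINAL2 := by
  have hPDIM : S_PDIM := pdim_ok
  have hJET : S_JET := Pool.Agent.Helper54.AC.jet_ok
  have pd : S_PD := Pool.Agent.Helper48.AC.pd_ok
  have ideal : S_IDEAL := Pool.Agent.Helper83.AC.ideal_ok
  have closed : S_CLOSED := Pool.Agent.Helper15.AC.closed_ok
  have hom : S_HOM := Pool.Agent.Helper53.AC.hom_ok pd closed
  have block : S_BLOCK := Pool.Agent.Helper35.AC.block_ok pd
  have equiv : S_EQUIV := Pool.Agent.Helper73.AC.equiv_ok pd hom block
  have kron : S_KRON := Pool.Agent.Helper35.AC.kron_ok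
  have trans : S_TRANS := Pool.Agent.Helper8.AC.trans_ok pd
  have rank1 : S_RANK1 := Pool.Agent.Helper8.AC.rank1_ok pd equiv block
  have range : S_RANGE := Pool.Agent.Helper39.AC.range_ok
  have inv : S_INV := Pool.Agent.Helper39.AC.inv_ok equiv block
  have tens : S_TENS := Pool.Agent.Helper69.AC.tens_ok
  have along : S_ALONG := Pool.Agent.Helper35.AC.along_ok
  have claim : S_CLAIM := Pool.Agent.Helper4.AC.claim_ok along
  have ell : S_ELL := Pool.Agent.Helper22.AC.ell_ok
  have contr : S_CONTR := Pool.Agent.Helper66.AC.contr_ok hom equiv block kron range tens pd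
  have fact : S_FACT := Pool.Agent.Helper3.AC.fact_ok
  have trfact : S_TRFACT := Pool.Agent.Helper59.AC.trfact_ok
  have theta : S_THETA := Pool.Agent.Helper86.AC.theta_ok ideal
  have alg : S_ALG := Pool.Agent.Helper32.AC.alg_ok pd ideal block kron trans rank1 hPDIM inv range
    tens along claim ell contr fact trfact theta
  have poly : S_POLY := Pool.Agent.Helper4.AC.poly_ok
  have nusm : S_NUSM := Pool.Agent.Helper53.AC.nusm_ok
  have tot : S_TOT := Pool.Agent.Helper83.AC.tot_ok
  have two : S_TWO := Pool.Agent.Helper97.AC.two_ok poly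
  have geo2 : S_GEO2 := Pool.Agent.Helper22.AC.geo2_ok hJET nusm tot two
  have root : S_ROOT := Pool.Agent.Helper85.AC.root_ok
  have quat : S_QUAT := Pool.Agent.Helper20.AC.quat_ok
  have plsm : S_PLSM := Pool.Agent.Helper20.AC.plsm_ok root
  have perm : S_PERM := Pool.Agent.Helper20.AC.perm_ok root
  have hW : S_W := Pool.Agent.Helper46.AC.w_ok root quat
  have mu : S_MU := Pool.Agent.Helper27.AC.mu_ok root quat plsm
  have fam : S_FAM := Pool.Agent.Helper18.AC.fam_ok gram_ok
  have geo1 : S_GEO1 := Pool.Agent.Helper81.AC.geo1_ok mu fam hom equiv block quat root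
  have m : S_M := Pool.Agent.Helper23.AC.m_ok root quat
  have g : S_G := Pool.Agent.Helper4.AC.g_ok root
  have cyl : S_CYL := Pool.Agent.Helper13.AC.cyl_ok
  have prod : S_PROD := Pool.Agent.Helper65.AC.prod_ok pd
  have a0 : S_A0 := Pool.Agent.Helper31.AC.a0_ok root
  have phi : S_PHI := Pool.Agent.Helper20.AC.phi_ok prod a0 perm hom quat
  exact final2 Pool.Agent.Helper35.AC.dim_ok mu
    (final geo1 geo2 alg phi plsm v_ok m hW g cyl root)

end Pool.Agent.Helper40.AC
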