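import Mathlib

/-!
Project AC (MP_4c91e2_ag): the approximation conjecture for submanifolds of real algebraic
varieties is false.  Definitions.
-/

open scoped ContDiff Topology Matrix Kronecker
open MeasureTheory

namespace Pool.Agent.Helper40.AC

noncomputable section

/-! ### Part 0: the notions of the problem -/

/-- Real algebraic subset of `ℝ^ι`. -/
def IsAlgSet {ι : Type} (X : Set (ι → ℝ)) : Prop :=
  ∃ S : Set (MvPolynomial ι ℝ), X = {x | ∀ p ∈ S, MvPolynomial.eval x p = 0}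

/-- The gradient of a polynomial at a point. -/
def grad {ι : Type} (p : MvPolynomial ι ℝ) (x : ι → ℝ) : ι → ℝ :=
  fun i => MvPolynomial.eval x (MvPolynomial.pderiv i p)

/-- `X ⊆ ℝ^ι` is nonsingular of dimension `d` at `x` (Jacobian criterion): there are `#ι - d`
polynomials vanishing on `X`, with linearly independent gradients at `x`, whose common zero set
agrees with `X` near `x`. -/
def NonsingAt {ι : Type} [Fintype ι] (X : Set (ι → ℝ)) (d : ℕ) (x : ι → ℝ) : Prop :=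
  ∃ (k : ℕ) (P : Fin k → MvPolynomial ι ℝ), k + d = Fintype.card ι ∧
    (∀ i, ∀ y ∈ X, MvPolynomial.eval y (P i) = 0) ∧
    LinearIndependent ℝ (fun i => grad (P i) x) ∧
    ∃ U ∈ 𝓝 x, ∀ y ∈ U, (∀ i, MvPolynomial.eval y (P i) = 0) → y ∈ X

/-- Nonsingular real algebraic variety of pure dimension `d` (an algebraic subset of `ℝ^ι`). -/
def NonsingVariety {ι : Type} [Fintype ι] (X : Set (ι → ℝ)) (d : ℕ) : Prop :=
  IsAlgSet X ∧ ∀ x ∈ X, NonsingAt X d x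

/-- Zariski locally closed: Zariski open in its Zariski closure. -/
def IsZarLocClosed {ι : Type} (Z : Set (ι → ℝ)) : Prop :=
  ∃ A B : Set (ι → ℝ), IsAlgSet A ∧ IsAlgSet B ∧ Z = A \ B

/-- Nonsingular Zariski locally closed subset of pure dimension `d`. -/
def NonsingLocClosed {ι : Type} [Fintype ι] (Z : Set (ι → ℝ)) (d : ℕ) : Prop :=
  IsZarLocClosed Z ∧ ∀ z ∈ Z, NonsingAt Z d z

/-- Smooth submanifold (without boundary) of `ℝ^ι` of dimension `d`: locally the regular zero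
set of a smooth map to `ℝ^(#ι - d)`. -/
def SmoothSubmanifold {ι : Type} [Fintype ι] (M : Set (ι → ℝ)) (d : ℕ) : Prop :=
  ∀ x ∈ M, ∃ (k : ℕ) (f : (ι → ℝ) → (Fin k → ℝ)) (U : Set (ι → ℝ)),
    k + d = Fintype.card ι ∧ IsOpen U ∧ x ∈ U ∧ ContDiffOn ℝ ∞ f U ∧
    Function.Surjective (fderiv ℝ f x) ∧ M ∩ U = {y | y ∈ U ∧ f y = 0}

/-- Local presentation of a `d`-dimensional manifold with boundary near `x`:
`B = {f = 0, ρ ≥ 0}` with `(f, ρ)` a submersion at `x`. -/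
def BdryChart {ι : Type} [Fintype ι] (B : Set (ι → ℝ)) (d : ℕ) (x : ι → ℝ)
    {k : ℕ} (f : (ι → ℝ) → (Fin k → ℝ)) (ρ : (ι → ℝ) → ℝ) (U : Set (ι → ℝ)) : Prop :=
  k + d = Fintype.card ι ∧ IsOpen U ∧ x ∈ U ∧ ContDiffOn ℝ ∞ f U ∧ ContDiffOn ℝ ∞ ρ U ∧
    Function.Surjective (fun v : ι → ℝ => (fderiv ℝ f x v, fderiv ℝ ρ x v)) ∧
    B ∩ U = {y | y ∈ U ∧ f y = 0 ∧ 0 ≤ ρ y}

/-- Smooth submanifold with boundary of `ℝ^ι`, of dimension `d`. -/
def ManifoldWithBoundary {ι : Type} [Fintype ι] (B : Set (ι → ℝ)) (d : ℕ) : Prop :=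
  ∀ x ∈ B, ∃ (k : ℕ) (f : (ι → ℝ) → (Fin k → ℝ)) (ρ : (ι → ℝ) → ℝ) (U : Set (ι → ℝ)),
    BdryChart B d x f ρ U

/-- The boundary of a smooth submanifold with boundary. -/
def bdry {ι : Type} [Fintype ι] (B : Set (ι → ℝ)) (d : ℕ) : Set (ι → ℝ) :=
  {x | x ∈ B ∧ ∃ (k : ℕ) (f : (ι → ℝ) → (Fin k → ℝ)) (ρ : (ι → ℝ) → ℝ) (U : Set (ι → ℝ)),
    BdryChart B d x f ρ U ∧ ρ x = 0}

/-- `f` is immersive on `M`: it maps smooth curves of `M` with nonzero velocity to curves with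
nonzero velocity. -/
def ImmersiveOn {ι κ : Type} [Fintype ι] [Fintype κ] (f : (ι → ℝ) → (κ → ℝ))
    (M : Set (ι → ℝ)) : Prop :=
  ∀ γ : ℝ → (ι → ℝ), ContDiff ℝ ∞ γ → (∀ s, γ s ∈ M) → deriv γ 0 ≠ 0 →
    deriv (fun s => f (γ s)) 0 ≠ 0

/-- `f` restricts to a smooth injective immersion of `M` (a smooth embedding when `M` is
compact). -/
def EmbeddingOn {ι κ : Type} [Fintype ι] [Fintype κ] (f : (ι → ℝ) → (κ → ℝ))
    (M : Set (ι → ℝ)) : Prop :=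
  ContDiffOn ℝ ∞ f M ∧ Set.InjOn f M ∧ ImmersiveOn f M

/-- Regular map on the real algebraic variety `W`: each coordinate is a quotient of polynomials
whose denominator has no zero on `W`. -/
def RegularMapOn {κ ι : Type} (g : (κ → ℝ) → (ι → ℝ)) (W : Set (κ → ℝ)) : Prop :=
  ∀ i, ∃ P Q : MvPolynomial κ ℝ, ∀ w ∈ W,
    MvPolynomial.eval w Q ≠ 0 ∧ g w i = MvPolynomial.eval w P / MvPolynomial.eval w Q

/-- The closed singular manifolds `φ₀ : M₀ → V` and `φ₁ : M₁ → V` of dimension `n` are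
(unoriented) bordant: there is a compact manifold with boundary `B` of dimension `n+1` whose
boundary is the disjoint union of diffeomorphic copies of `M₀` and `M₁`, and a continuous map
`B → V` which restricts to `φ₀` and `φ₁`. -/
def Bordant {ι₀ ι₁ ι : Type} [Fintype ι₀] [Fintype ι₁] [Fintype ι] (V : Set (ι → ℝ)) (n : ℕ)
    (M₀ : Set (ι₀ → ℝ)) (φ₀ : (ι₀ → ℝ) → (ι → ℝ))
    (M₁ : Set (ι₁ → ℝ)) (φ₁ : (ι₁ → ℝ) → (ι → ℝ)) : Prop :=
  ∃ (μ : Type) (_ : Fintype μ) (B : Set (μ → ℝ)) (Φ : (μ → ℝ) → (ι → ℝ))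
    (j₀ : (ι₀ → ℝ) → (μ → ℝ)) (j₁ : (ι₁ → ℝ) → (μ → ℝ)),
    IsCompact B ∧ ManifoldWithBoundary B (n + 1) ∧ ContinuousOn Φ B ∧ Set.MapsTo Φ B V ∧
    EmbeddingOn j₀ M₀ ∧ EmbeddingOn j₁ M₁ ∧ Disjoint (j₀ '' M₀) (j₁ '' M₁) ∧
    (j₀ '' M₀) ∪ (j₁ '' M₁) = bdry B (n + 1) ∧
    (∀ x ∈ M₀, Φ (j₀ x) = φ₀ x) ∧ (∀ x ∈ M₁, Φ (j₁ x) = φ₁ x)

/-- The unoriented bordism class of the inclusion `M ⊆ V` is algebraic: it is represented by a
regular map `g : W → V` from a compact nonsingular real algebraic variety of dimension `n`. -/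
def AlgebraicBordismClass {ι : Type} [Fintype ι] (V : Set (ι → ℝ)) (n : ℕ)
    (M : Set (ι → ℝ)) : Prop :=
  ∃ (κ : Type) (_ : Fintype κ) (W : Set (κ → ℝ)) (g : (κ → ℝ) → (ι → ℝ)),
    IsCompact W ∧ NonsingVariety W n ∧ RegularMapOn g W ∧ Set.MapsTo g W V ∧
    Bordant V n M id W g

/-- Smooth isotopy of `M` in `V` through embeddings, starting at the inclusion. -/
def SmoothIsotopyIn {ι : Type} [Fintype ι] (V M : Set (ι → ℝ))
    (H : (ι → ℝ) → ℝ → (ι → ℝ)) : Prop :=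
  ContDiffOn ℝ ∞ (fun p : (ι → ℝ) × ℝ => H p.1 p.2) (M ×ˢ Set.Icc (0 : ℝ) 1) ∧
  (∀ x ∈ M, ∀ t ∈ Set.Icc (0 : ℝ) 1, H x t ∈ V) ∧
  (∀ x ∈ M, H x 0 = x) ∧
  (∀ t ∈ Set.Icc (0 : ℝ) 1, Set.InjOn (fun x => H x t) M ∧ ImmersiveOn (fun x => H x t) M)

/-! ### Part 1: the ring of smooth functions on the 4-torus -/

/-- Angles on the 4-torus. -/
abbrev Ang := Fin 4 → ℝ

/-- Smooth functions `ℝ⁴ → ℂ`, `2π`-periodic in each variable, as a subalgebra. -/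
def BBs : Subalgebra ℂ (Ang → ℂ) where
  carrier := {f | ContDiff ℝ ∞ f ∧ ∀ (x : Ang) (k : Fin 4), f (x + Pi.single k (2 * Real.pi)) = f x}
  mul_mem' := by
    rintro f g ⟨hf, hf'⟩ ⟨hg, hg'⟩
    exact ⟨hf.mul hg, fun x k => by simp [hf' x k, hg' x k]⟩
  add_mem' := by
    rintro f g ⟨hf, hf'⟩ ⟨hg, hg'⟩
    exact ⟨hf.add hg, fun x k => by simp [hf' x k, hg' x k]⟩
  algebraMap_mem' := by
    intro r
    exact ⟨contDiff_const, fun x k => rfl⟩

/-- The ring `C^∞(T⁴, ℂ)`: smooth functions `ℝ⁴ → ℂ`, `2π`-periodic in each variable. -/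
def BB : Type := BBs

instance : CommRing BB := inferInstanceAs (CommRing BBs)

instance : Algebra ℂ BB := inferInstanceAs (Algebra ℂ BBs)

/-- The function of an element of `BB`. -/
def BB.fn (f : BB) : Ang → ℂ := (show BBs from f).1

/-- Constructor. -/
def BB.mk (f : Ang → ℂ) (h1 : ContDiff ℝ ∞ f)
    (h2 : ∀ (x : Ang) (k : Fin 4), f (x + Pi.single k (2 * Real.pi)) = f x) : BB :=
  (⟨f, h1, h2⟩ : BBs)

theorem BB.ext {f g : BB} (h : ∀ x, f.fn x = g.fn x) : f = g :=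
  Subtype.ext (funext h)

@[simp] theorem BB.fn_mk (f : Ang → ℂ) (h1) (h2) (x : Ang) : (BB.mk f h1 h2).fn x = f x := rfl
@[simp] theorem BB.fn_add (f g : BB) (x : Ang) : (f + g).fn x = f.fn x + g.fn x := rfl
@[simp] theorem BB.fn_mul (f g : BB) (x : Ang) : (f * g).fn x = f.fn x * g.fn x := rfl
@[simp] theorem BB.fn_sub (f g : BB) (x : Ang) : (f - g).fn x = f.fn x - g.fn x := rfl
@[simp] theorem BB.fn_neg (f : BB) (x : Ang) : (-f).fn x = -f.fn x := rfl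
@[simp] theorem BB.fn_zero (x : Ang) : (0 : BB).fn x = 0 := rfl
@[simp] theorem BB.fn_one (x : Ang) : (1 : BB).fn x = 1 := rfl
@[simp] theorem BB.fn_algebraMap (c : ℂ) (x : Ang) : (algebraMap ℂ BB c).fn x = c := rfl
@[simp] theorem BB.fn_smul (c : ℂ) (f : BB) (x : Ang) : (c • f).fn x = c * f.fn x := rfl

theorem BB.smooth (f : BB) : ContDiff ℝ ∞ f.fn := (show BBs from f).2.1
theorem BB.periodic (f : BB) (x : Ang) (k : Fin 4) :
    f.fn (x + Pi.single k (2 * Real.pi)) = f.fn x := (show BBs from f).2.2 x k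

/-- Partial derivative of a complex function on `ℝ⁴`. -/
def pdF (j : Fin 4) (f : Ang → ℂ) : Ang → ℂ := fun x => fderiv ℝ f x (Pi.single j 1)

/-- Partial derivatives of elements of `BB`. -/
def pd (j : Fin 4) (f : BB) : BB := BB.mk (pdF j f.fn)
  ((f.smooth.fderiv_right (m := ∞) (by norm_cast)).clm_apply contDiff_const)
  (fun x k => by
    have h3 : (fun y => f.fn (y + Pi.single k (2 * Real.pi))) = f.fn :=
      funext fun y => f.periodic y k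
    have h4 : fderiv ℝ f.fn (x + Pi.single k (2 * Real.pi)) = fderiv ℝ f.fn x := by
      rw [← fderiv_comp_add_right (f := f.fn) (Pi.single k (2 * Real.pi) : Ang), h3]
    simp only [pdF, h4])

/-- Evaluation of an element of `BB` at a point. -/
def evx (x : Ang) : BB →+* ℂ where
  toFun f := f.fn x
  map_one' := rfl
  map_mul' _ _ := rfl
  map_zero' := rfl
  map_add' _ _ := rfl

@[simp] theorem evx_apply (x : Ang) (f : BB) : evx x f = f.fn x := rfl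

/-- The `(j,k)` component of the curvature `e de de` of an idempotent matrix `e` over a ring
with a family of derivations `D`. -/
def Fc {S ι n : Type} [CommRing S] [Fintype n] (D : ι → S → S) (e : Matrix n n S) (j k : ι) :
    Matrix n n S :=
  e * (e.map (D j) * e.map (D k) - e.map (D k) * e.map (D j))

/-- The `(a,b,c,d)` component of `tr (F ∧ F) / 2 · 2`. -/
def om {S ι n : Type} [CommRing S] [Fintype n] (D : ι → S → S) (e : Matrix n n S)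
    (a b c d : ι) : S :=
  2 * ((Fc D e a b * Fc D e c d).trace - (Fc D e a c * Fc D e b d).trace +
    (Fc D e a d * Fc D e b c).trace)

/-- The cube `[0, 2π]⁴`. -/
def cube : Set Ang := Set.Icc 0 (fun _ => 2 * Real.pi)

/-- The characteristic number `∫ tr (e de de de de)` of an idempotent matrix over `BB`. -/
def Phi {n : Type} [Fintype n] (e : Matrix n n BB) : ℂ :=
  ∫ x in cube, (om pd e 0 1 2 3).fn x

/-! ### Part 2: the example -/

set_option linter.unusedVariables false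

/-- The real root of `t³ + 4t = y`. -/
theorem exists_root (y : ℝ) : ∃ t : ℝ, t ^ 3 + 4 * t = y := by
  have hc : Continuous fun t : ℝ => t ^ 3 + 4 * t := by fun_prop
  have h1 : Filter.Tendsto (fun t : ℝ => t ^ 3 + 4 * t) Filter.atTop Filter.atTop := by
    refine Filter.tendsto_atTop_mono' _ ?_ Filter.tendsto_id
    filter_upwards [Filter.eventually_ge_atTop (0 : ℝ)] with t ht
    simp only [id]
    nlinarith [pow_nonneg ht 3]
  have h2 : Filter.Tendsto (fun t : ℝ => t ^ 3 + 4 * t) Filter.atBot Filter.atBot := by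
    refine Filter.tendsto_atBot_mono' _ ?_ Filter.tendsto_id
    filter_upwards [Filter.eventually_le_atBot (0 : ℝ)] with t ht
    simp only [id]
    nlinarith [mul_nonneg_of_nonpos_of_nonpos ht (by linarith : 4 * t ≤ 0), sq_nonneg t,
      mul_nonneg (sq_nonneg t) (neg_nonneg.2 ht)]
  exact hc.surjective h1 h2 y

/-- The real root of `t³ + 4t = y`. -/
def rootF (y : ℝ) : ℝ := Classical.choose (exists_root y)

theorem rootF_spec (y : ℝ) : rootF y ^ 3 + 4 * rootF y = y := Classical.choose_spec (exists_root y)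

/-- Real part of `f = (1+s₂)(c₁ + i s₁) + (1-s₂)`. -/
def fR (c₁ s₁ c₂ s₂ : ℝ) : ℝ := (1 + s₂) * c₁ + (1 - s₂)
/-- Imaginary part of `f`. -/
def fI (c₁ s₁ c₂ s₂ : ℝ) : ℝ := (1 + s₂) * s₁
/-- Real part of `h = -iσ((1-s₂) - (1+s₂)(c₁ - i s₁))`, `σ = s₂(3-c₂)/4`. -/
def hR (c₁ s₁ c₂ s₂ : ℝ) : ℝ := s₂ * (3 - c₂) / 4 * (1 + s₂) * s₁
/-- Imaginary part of `h`. -/
def hI (c₁ s₁ c₂ s₂ : ℝ) : ℝ := -(s₂ * (3 - c₂) / 4 * ((1 - s₂) - (1 + s₂) * c₁))
/-- The right hand side of the cubic. -/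
def gg (c₁ s₁ c₂ s₂ : ℝ) : ℝ := -(c₂ ^ 2 * s₂ * (3 - c₂) * s₁ / 2)
/-- Real part of `κ = t² + i r t - r² + 4`, `r = 1 - c₂`. -/
def kR (c₁ s₁ c₂ s₂ t : ℝ) : ℝ := t ^ 2 - (1 - c₂) ^ 2 + 4
/-- Imaginary part of `κ`. -/
def kI (c₁ s₁ c₂ s₂ t : ℝ) : ℝ := (1 - c₂) * t

/-- The denominator `|f|² + |t - ir|² + |κ|² + |h|²`. -/
def Nn (c₁ s₁ c₂ s₂ t : ℝ) : ℝ :=
  fR c₁ s₁ c₂ s₂ ^ 2 + fI c₁ s₁ c₂ s₂ ^ 2 + t ^ 2 + (1 - c₂) ^ 2 +
    kR c₁ s₁ c₂ s₂ t ^ 2 + kI c₁ s₁ c₂ s₂ t ^ 2 + hR c₁ s₁ c₂ s₂ ^ 2 + hI c₁ s₁ c₂ s₂ ^ 2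

/-- The numerator vector. -/
def bv (c₁ s₁ c₂ s₂ t : ℝ) : Fin 3 → ℝ :=
  ![2 * ((fR c₁ s₁ c₂ s₂ * t - fI c₁ s₁ c₂ s₂ * (1 - c₂)) -
        (kR c₁ s₁ c₂ s₂ t * hR c₁ s₁ c₂ s₂ + kI c₁ s₁ c₂ s₂ t * hI c₁ s₁ c₂ s₂)),
    2 * ((-(fR c₁ s₁ c₂ s₂ * (1 - c₂)) - fI c₁ s₁ c₂ s₂ * t) -
        (kR c₁ s₁ c₂ s₂ t * hI c₁ s₁ c₂ s₂ - kI c₁ s₁ c₂ s₂ t * hR c₁ s₁ c₂ s₂)),
    fR c₁ s₁ c₂ s₂ ^ 2 + fI c₁ s₁ c₂ s₂ ^ 2 - t ^ 2 - (1 - c₂) ^ 2 +
      kR c₁ s₁ c₂ s₂ t ^ 2 + kI c₁ s₁ c₂ s₂ t ^ 2 - hR c₁ s₁ c₂ s₂ ^ 2 - hI c₁ s₁ c₂ s₂ ^ 2]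

/-- The Nash map `T² → S²` of degree one (in the coordinates `(c₁,s₁,c₂,s₂)` of `T²`). -/
def aT (c₁ s₁ c₂ s₂ : ℝ) : Fin 3 → ℝ := fun i =>
  bv c₁ s₁ c₂ s₂ (rootF (gg c₁ s₁ c₂ s₂)) i / Nn c₁ s₁ c₂ s₂ (rootF (gg c₁ s₁ c₂ s₂))

/-- The matrix of left multiplication by the imaginary quaternion `a`. -/
def LL {S : Type} [CommRing S] (a : Fin 3 → S) : Matrix (Fin 4) (Fin 4) S :=
  !![0, -a 0, -a 1, -a 2; a 0, 0, -a 2, a 1; a 1, a 2, 0, -a 0; a 2, -a 1, a 0, 0]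

/-- The matrix of right multiplication by the imaginary quaternion `b`. -/
def RR {S : Type} [CommRing S] (b : Fin 3 → S) : Matrix (Fin 4) (Fin 4) S :=
  !![0, -b 0, -b 1, -b 2; b 0, 0, b 2, -b 1; b 1, -b 2, 0, b 0; b 2, b 1, -b 0, 0]

/-- Index type of the coordinates `c₁..c₄, s₁..s₄, w₀..w₄` of `ℝ¹³`. -/
abbrev Idx := Fin 4 ⊕ Fin 4 ⊕ Fin 5

/-- The coordinates `c_j`. -/
def cc (z : Idx → ℝ) (j : Fin 4) : ℝ := z (Sum.inl j)
/-- The coordinates `s_j`. -/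
def ss (z : Idx → ℝ) (j : Fin 4) : ℝ := z (Sum.inr (Sum.inl j))
/-- The coordinates `w_k`. -/
def ww (z : Idx → ℝ) (k : Fin 5) : ℝ := z (Sum.inr (Sum.inr k))
/-- The quaternion part `(w₀,..,w₃)` of the point of `S⁴`. -/
def vv (z : Idx → ℝ) (k : Fin 4) : ℝ := ww z k.castSucc

/-- The variety `V = (S¹)⁴ × S⁴ ⊆ ℝ¹³`. -/
def VV : Set (Idx → ℝ) := {z | (∀ j, cc z j ^ 2 + ss z j ^ 2 = 1) ∧ ∑ k, ww z k ^ 2 = 1}

/-- The first unit vector of a point of `V`. -/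
def a1 (z : Idx → ℝ) : Fin 3 → ℝ := aT (cc z 0) (ss z 0) (cc z 1) (ss z 1)
/-- The second unit vector of a point of `V`. -/
def a2 (z : Idx → ℝ) : Fin 3 → ℝ := aT (cc z 2) (ss z 2) (cc z 3) (ss z 3)

/-- The submanifold `M = {(x₁,x₂,(v,τ)) : a(x₁) v + v a(x₂) = 0}`. -/
def MM : Set (Idx → ℝ) := {z | z ∈ VV ∧ (LL (a1 z) + RR (a2 z)) *ᵥ vv z = 0}

/-- Index type of the coordinates of `ℝ²¹`. -/
abbrev WIdx := Idx ⊕ (Fin 2 ⊕ (Fin 2 × Fin 3))

/-- The projection `ℝ²¹ → ℝ¹³`. -/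
def gW (w : WIdx → ℝ) : Idx → ℝ := fun i => w (Sum.inl i)
/-- The coordinates `t₁, t₂`. -/
def tW (w : WIdx → ℝ) (i : Fin 2) : ℝ := w (Sum.inr (Sum.inl i))
/-- The coordinates `a⁽¹⁾, a⁽²⁾`. -/
def aW (w : WIdx → ℝ) (i : Fin 2) (j : Fin 3) : ℝ := w (Sum.inr (Sum.inr (i, j)))

/-- The compact nonsingular real algebraic variety `W ⊆ ℝ²¹`. -/
def WW : Set (WIdx → ℝ) := {w | gW w ∈ VV ∧
  tW w 0 ^ 3 + 4 * tW w 0 = gg (cc (gW w) 0) (ss (gW w) 0) (cc (gW w) 1) (ss (gW w) 1) ∧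
  tW w 1 ^ 3 + 4 * tW w 1 = gg (cc (gW w) 2) (ss (gW w) 2) (cc (gW w) 3) (ss (gW w) 3) ∧
  (∀ j, Nn (cc (gW w) 0) (ss (gW w) 0) (cc (gW w) 1) (ss (gW w) 1) (tW w 0) * aW w 0 j =
    bv (cc (gW w) 0) (ss (gW w) 0) (cc (gW w) 1) (ss (gW w) 1) (tW w 0) j) ∧
  (∀ j, Nn (cc (gW w) 2) (ss (gW w) 2) (cc (gW w) 3) (ss (gW w) 3) (tW w 1) * aW w 1 j =
    bv (cc (gW w) 2) (ss (gW w) 2) (cc (gW w) 3) (ss (gW w) 3) (tW w 1) j) ∧
  (LL (aW w 0) + RR (aW w 1)) *ᵥ vv (gW w) = 0}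

/-- The Nash map in angular coordinates. -/
def aA (θ φ : ℝ) : Fin 3 → ℝ := aT (Real.cos θ) (Real.sin θ) (Real.cos φ) (Real.sin φ)

/-- The projector `(1 - L(a)R(b))/2` onto the plane `{v : a v = v b}` of a pair of unit imaginary
quaternions. -/
def pR (a b : Fin 3 → ℝ) : Matrix (Fin 4) (Fin 4) ℝ := (1 / 2 : ℝ) • (1 - LL a * RR b)

/-- Smooth real functions on `ℝ⁴`, `2π`-periodic in each variable. -/
def SmPer (f : Ang → ℝ) : Prop :=
  ContDiff ℝ ∞ f ∧ ∀ (x : Ang) (k : Fin 4), f (x + Pi.single k (2 * Real.pi)) = f x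

/-- A smooth periodic real function as an element of `BB`. -/
def rB (f : Ang → ℝ) (h : SmPer f) : BB :=
  BB.mk (fun x => (f x : ℂ)) (Complex.ofRealCLM.contDiff.comp h.1) (fun x k => by simp [h.2 x k])

/-- A matrix of smooth periodic real functions as a matrix over `BB`. -/
def mB {n : Type} (p : Ang → Matrix n n ℝ) (h : ∀ i j, SmPer (fun x => p x i j)) :
    Matrix n n BB := Matrix.of fun i j => rB (fun x => p x i j) (h i j)

@[simp] theorem rB_fn (f : Ang → ℝ) (h : SmPer f) (x : Ang) : (rB f h).fn x = (f x : ℂ) := rfl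

@[simp] theorem mB_fn {n : Type} (p : Ang → Matrix n n ℝ) (h : ∀ i j, SmPer (fun x => p x i j))
    (i j : n) (x : Ang) : (mB p h i j).fn x = (p x i j : ℂ) := rfl

/-- The projector family of the example: `pL x` is the projector of `ℝ⁴` onto the normal plane of
`M` in `V` at `(x, north pole)`. -/
def pL (x : Ang) : Matrix (Fin 4) (Fin 4) ℝ :=
  pR (aT (Real.cos (x 0)) (Real.sin (x 0)) (Real.cos (x 1)) (Real.sin (x 1)))
    (aT (Real.cos (x 2)) (Real.sin (x 2)) (Real.cos (x 3)) (Real.sin (x 3)))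

/-- A pair of smooth `2π`-periodic maps of two angles to `ℝ³`. -/
structure PerMap where
  /-- the map -/
  f : ℝ → ℝ → Fin 3 → ℝ
  smooth : ContDiff ℝ ∞ (fun p : ℝ × ℝ => f p.1 p.2)
  per1 : ∀ θ φ, f (θ + 2 * Real.pi) φ = f θ φ
  per2 : ∀ θ φ, f θ (φ + 2 * Real.pi) = f θ φ
  unit : ∀ θ φ, ∑ i, f θ φ i ^ 2 = 1

/-- The basic embedding `k : T⁴ → M`, `x ↦ (x, north pole)`. -/
def kk (x : Ang) : Idx → ℝ :=
  Sum.elim (fun j => Real.cos (x j)) (Sum.elim (fun j => Real.sin (x j))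
    (fun k => if k = 4 then 1 else 0))

/-- The chart `V ⊇ U → ℂ⁸`. -/
def Psi (z : Idx → ℝ) : Fin 8 → ℂ := fun l =>
  if h : l.1 < 4 then (cc z ⟨l.1, h⟩ : ℂ) + (ss z ⟨l.1, h⟩ : ℂ) * Complex.I
  else ((ww z ⟨l.1 - 4, by omega⟩ / (1 + ww z 4) : ℝ) : ℂ)

/-- The gradient of `c_j² + s_j²` divided by two. -/
def norC (z : Idx → ℝ) (j : Fin 4) : Idx → ℝ :=
  Sum.elim (fun i => if i = j then cc z j else 0)
    (Sum.elim (fun i => if i = j then ss z j else 0) (fun _ => 0))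

/-- The gradient of `∑ w_k²` divided by two. -/
def norS (z : Idx → ℝ) : Idx → ℝ :=
  Sum.elim (fun _ => 0) (Sum.elim (fun _ => 0) (fun k => ww z k))

/-- Tangential data along a smooth 4-torus `K` in a subset `Z` of `V`: `ψ x` is a (redundant)
smooth parametrisation of `Z` near `K x`, and `p x` is the orthogonal projector of `ℝ¹³` onto the
normal plane of `Z` in `V` at `K x`. -/
structure TData (Z : Set (Idx → ℝ)) where
  /-- the torus -/
  K : Ang → Idx → ℝ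
  /-- the parametrisations -/
  ψ : Ang → (Fin 8 → ℝ) → Idx → ℝ
  /-- the projectors -/
  p : Ang → Matrix Idx Idx ℝ
  Ksm : ∀ i, SmPer (fun x => K x i)
  psm : ∀ i j, SmPer (fun x => p x i j)
  ψsm : ∀ x, ContDiff ℝ ∞ (ψ x)
  ψ0 : ∀ x, ψ x 0 = K x
  ψmem : ∀ x u, ψ x u ∈ Z
  ZV : Z ⊆ VV
  pos : ∀ x, 0 < ww (K x) 4
  sym : ∀ x, (p x)ᵀ = p x
  idem : ∀ x, p x * p x = p x
  tr : ∀ x, (p x).trace = 2
  tan : ∀ x u, p x *ᵥ (fderiv ℝ (ψ x) 0 u) = 0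
  rk : ∀ x, Module.finrank ℝ (LinearMap.range (fderiv ℝ (ψ x) 0).toLinearMap) = 6
  nC : ∀ x j, p x *ᵥ norC (K x) j = 0
  nS : ∀ x, p x *ᵥ norS (K x) = 0

/-! ### Part 3: algebra -/

/-- Projective dimension `≤ n` (universal form). -/
def HasPD (R : Type) [CommRing R] :
    ℕ → (M : Type) → [AddCommGroup M] → [Module R M] → Prop
  | 0 => fun M _ _ => Module.Projective R M
  | n + 1 => fun M _ _ => ∀ (F : Type) [AddCommGroup F] [Module R F], Module.Projective R F →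
      ∀ π : F →ₗ[R] M, Function.Surjective π → HasPD R n (LinearMap.ker π)

/-- `S` is projective along the points `ev x` of `B`: for each `x` some element `e` of `P` which
is nonzero at `x` acts on `S` through a finite free module. -/
def ProjAlong (P : Type) {B X : Type} [CommRing P] [CommRing B] [Algebra P B] (ev : X → B →+* ℂ)
    (S : Type) [AddCommGroup S] [Module P S] : Prop :=
  ∀ x : X, ∃ e : P, ev x (algebraMap P B e) ≠ 0 ∧
    ∃ (n : ℕ) (α : S →ₗ[P] (Fin n → P)) (β : (Fin n → P) →ₗ[P] S),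
      β ∘ₗ α = e • (LinearMap.id : S →ₗ[P] S)

/-- Additive invariants of finitely generated projective modules. -/
structure AddInv (B G : Type) [CommRing B] [AddCommGroup G] where
  /-- the invariant -/
  val : ∀ (E : Type) [AddCommGroup E] [Module B E], G
  congr : ∀ (E E' : Type) [AddCommGroup E] [Module B E] [AddCommGroup E'] [Module B E'],
    (E ≃ₗ[B] E') → val E = val E'
  prod : ∀ (E E' : Type) [AddCommGroup E] [Module B E] [AddCommGroup E'] [Module B E'],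
    Module.Finite B E → Module.Projective B E → Module.Finite B E' → Module.Projective B E' →
    val (E × E') = val E + val E'

end

end Pool.Agent.Helper40.AC
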