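import Pool.Agent.Helper40.AC.Stmts

/-! Project AC: assembly of the final theorem. -/

open scoped ContDiff Topology Matrix Kronecker TensorProduct

namespace Pool.Agent.Helper40.AC

theorem mB_mul {n : Type} [Fintype n] [DecidableEq n] (p : Ang → Matrix n n ℝ)
    (h : ∀ i j, SmPer (fun x => p x i j)) (hp : ∀ x, p x * p x = p x) :
    mB p h * mB p h = mB p h := by
  ext i j
  apply BB.ext
  intro x
  have h2 : (p x * p x) i j = p x i j := by rw [hp x]
  rw [Matrix.mul_apply] at h2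
  rw [Matrix.mul_apply, ← evx_apply, map_sum, mB_fn, ← h2]
  simp

theorem mB_transpose {n : Type} (p : Ang → Matrix n n ℝ)
    (h : ∀ i j, SmPer (fun x => p x i j)) (hp : ∀ x, (p x)ᵀ = p x) :
    (mB p h)ᵀ = mB p h := by
  ext i j
  apply BB.ext
  intro x
  have h2 : (p x)ᵀ i j = p x i j := by rw [hp x]
  rw [Matrix.transpose_apply] at h2
  rw [Matrix.transpose_apply, mB_fn, mB_fn, h2]

theorem mB_trace {n : Type} [Fintype n] (p : Ang → Matrix n n ℝ)
    (h : ∀ i j, SmPer (fun x => p x i j)) (c : ℝ) (hp : ∀ x, (p x).trace = c) :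
    (mB p h).trace = algebraMap ℂ BB c := by
  apply BB.ext
  intro x
  rw [← evx_apply, Matrix.trace, map_sum, BB.fn_algebraMap, ← hp x, Matrix.trace]
  simp

theorem final (hGEO1 : S_GEO1) (hGEO2 : S_GEO2) (hALG : S_ALG) (hPHI : S_PHI) (hPLSM : S_PLSM)
    (hV : S_V) (hM : S_M) (hW : S_W) (hG : S_G) (hCYL : S_CYL) (hROOT : S_ROOT) : S_FINAL := by
  have hMV : MM ⊆ VV := fun z hz => hz.1
  refine ⟨hV, hM.1, hM.2, hMV, ?_, ?_⟩
  · refine ⟨WIdx, inferInstance, WW, gW, hW.1, hW.2, ?_, ?_, ?_⟩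
    · intro i
      refine ⟨MvPolynomial.X (Sum.inl i), 1, fun w _ => ?_⟩
      simp [gW]
    · intro w hw
      exact hw.1
    · exact hCYL VV MM WW gW 6 hM.1 hM.2 hMV hG.1 hG.2
  · intro H hH hd hZ
    obtain ⟨T, hT⟩ := hGEO1 H hH hd hPLSM
    obtain ⟨A⟩ := hGEO2 _ T hZ.2
    have h0 : Phi (mB T.p T.psm) = 0 := by
      refine hALG Idx (mB T.p T.psm) (mB_mul _ _ T.idem) (mB_transpose _ _ T.sym) ?_ A
      rw [mB_trace T.p T.psm 2 T.tr]
      apply BB.ext
      intro x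
      rw [← evx_apply, ← evx_apply, map_ofNat]
      simp
    exact hPHI hPLSM (hT ▸ h0)

end Pool.Agent.Helper40.AC
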