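import Pool.Agent.Helper40.AC.Defs

/-!
Project AC (MP_4c91e2_ag): statements of the packets.
-/

open scoped ContDiff Topology Matrix Kronecker TensorProduct
open MeasureTheory

namespace Pool.Agent.Helper40.AC

noncomputable section

set_option linter.unusedVariables false

/-! ### Group A: the number Phi -/

/-- Basic facts on the derivations `pd` of `BB`. -/
def S_PD : Prop :=
  (∀ j (f g : BB), pd j (f + g) = pd j f + pd j g) ∧
  (∀ j (f g : BB), pd j (f * g) = pd j f * g + f * pd j g) ∧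
  (∀ i j (f : BB), pd i (pd j f) = pd j (pd i f)) ∧
  (∀ j (f : BB), ∫ x in cube, (pd j f).fn x = 0) ∧
  (∀ j (c : ℂ), pd j (algebraMap ℂ BB c) = 0) ∧
  (∀ f : BB, IntegrableOn f.fn cube)

/-- An ideal of `BB` not contained in any point ideal is everything. -/
def S_IDEAL : Prop :=
  ∀ I : Ideal BB, (∀ x : Ang, ∃ f ∈ I, evx x f ≠ 0) → I = ⊤

/-- The form `om` is closed. -/
def S_CLOSED : Prop :=
  ∀ {S ι n : Type} [CommRing S] [Fintype n] [DecidableEq n] (D : ι → S → S),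
    (∀ i x y, D i (x + y) = D i x + D i y) → (∀ i x y, D i (x * y) = D i x * y + x * D i y) →
    (∀ i j x, D i (D j x) = D j (D i x)) →
    ∀ e : Matrix n n S, e * e = e → ∀ t a b c d : ι,
      D t (om D e a b c d) = D a (om D e t b c d) - D b (om D e t a c d) +
        D c (om D e t a b d) - D d (om D e t a b c)

/-- Homotopy invariance. -/
def S_HOM : Prop :=
  ∀ {n : Type} [Fintype n] [DecidableEq n] (e : ℝ → Matrix n n BB),
    (∀ i j, ContDiff ℝ ∞ (fun q : ℝ × Ang => (e q.1 i j).fn q.2)) →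
    (∀ t, e t * e t = e t) → Phi (e 0) = Phi (e 1)

/-- Additivity, and the numbers of 0 and 1. -/
def S_BLOCK : Prop :=
  (∀ {m n : Type} [Fintype m] [Fintype n] (e : Matrix m m BB) (f : Matrix n n BB),
    Phi (Matrix.fromBlocks e 0 0 f) = Phi e + Phi f) ∧
  (∀ {n : Type} [Fintype n] [DecidableEq n], Phi (0 : Matrix n n BB) = 0) ∧
  (∀ {n : Type} [Fintype n] [DecidableEq n], Phi (1 : Matrix n n BB) = 0)

/-- Invariance under equivalence of idempotents. -/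
def S_EQUIV : Prop :=
  ∀ {m n : Type} [Fintype m] [DecidableEq m] [Fintype n] [DecidableEq n]
    (e : Matrix m m BB) (f : Matrix n n BB) (a : Matrix m n BB) (b : Matrix n m BB),
    e * e = e → f * f = f → a * b = e → b * a = f → Phi e = Phi f

/-- Kronecker products. -/
def S_KRON : Prop :=
  ∀ {S ι m n : Type} [CommRing S] [Fintype m] [DecidableEq m] [Fintype n] [DecidableEq n]
    (D : ι → S → S),
    (∀ i x y, D i (x + y) = D i x + D i y) → (∀ i x y, D i (x * y) = D i x * y + x * D i y) →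
    ∀ (e : Matrix m m S) (g : Matrix n n S), e * e = e → g * g = g →
    (∀ j k, (Fc D e j k).trace = 0) → ∀ a b c d : ι,
      om D (e ⊗ₖ g) a b c d = g.trace * om D e a b c d + e.trace * om D g a b c d

/-- Transposes, and vanishing of the trace of the curvature of a symmetric projector. -/
def S_TRANS : Prop :=
  (∀ {n : Type} [Fintype n] [DecidableEq n] (e : Matrix n n BB), e * e = e →
    Phi eᵀ = Phi e) ∧
  (∀ {n : Type} [Fintype n] [DecidableEq n] (e : Matrix n n BB), e * e = e → eᵀ = e →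
    ∀ j k, (Fc pd e j k).trace = 0)

/-- Rank one idempotents. -/
def S_RANK1 : Prop :=
  ∀ {n : Type} [Fintype n] [DecidableEq n] (f : Matrix n n BB), f * f = f → f.trace = 1 →
    Phi (f ⊗ₖ fᵀ) = 0

/-! ### Group B: modules -/

/-- Polynomial rings over `ℂ` have finite global dimension. -/
def S_PDIM : Prop :=
  ∀ (n : ℕ) (M : Type) [AddCommGroup M] [Module (MvPolynomial (Fin n) ℂ) M],
    HasPD (MvPolynomial (Fin n) ℂ) n M

/-- `Phi` and the trace define an additive invariant of f.g. projective `BB`-modules. -/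
def S_INV : Prop :=
  ∃ φ : AddInv BB (ℂ × BB), ∀ (n : Type) [Fintype n] [DecidableEq n] (e : Matrix n n BB),
    e * e = e → φ.val (LinearMap.range (Matrix.toLin' e)) = (Phi e, e.trace)

/-- Every f.g. projective module over a commutative ring is the range of an idempotent matrix. -/
def S_RANGE : Prop :=
  ∀ (B : Type) [CommRing B] (E : Type) [AddCommGroup E] [Module B E], Module.Finite B E →
    Module.Projective B E → ∃ (n : ℕ) (e : Matrix (Fin n) (Fin n) B), e * e = e ∧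
      Nonempty (E ≃ₗ[B] LinearMap.range (Matrix.toLin' e))

/-- Tensor products of ranges of idempotent matrices. -/
def S_TENS : Prop :=
  ∀ (B : Type) [CommRing B] (m n : Type) [Fintype m] [DecidableEq m] [Fintype n] [DecidableEq n]
    (e : Matrix m m B) (f : Matrix n n B), e * e = e → f * f = f →
    Nonempty ((LinearMap.range (Matrix.toLin' e) ⊗[B] LinearMap.range (Matrix.toLin' f)) ≃ₗ[B]
      LinearMap.range (Matrix.toLin' (e ⊗ₖ f)))

/-- Modules projective along the points: base change is f.g. projective; kernels. -/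
def S_ALONG : Prop :=
  ∀ (P B X : Type) [CommRing P] [CommRing B] [Algebra P B] (ev : X → B →+* ℂ),
    (∀ I : Ideal B, (∀ x, ∃ f ∈ I, ev x f ≠ 0) → I = ⊤) →
    ∀ (S : Type) [AddCommGroup S] [Module P S], Module.Finite P S → ProjAlong P ev S →
      (Module.Finite B (B ⊗[P] S) ∧ Module.Projective B (B ⊗[P] S)) ∧
      ∀ (k : ℕ) (π : (Fin k → P) →ₗ[P] S), Function.Surjective π →
        ProjAlong P ev (LinearMap.ker π) ∧
        Nonempty ((B ⊗[P] (Fin k → P)) ≃ₗ[B]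
          ((B ⊗[P] (LinearMap.ker π)) × (B ⊗[P] S)))

/-- Multiplicativity of additive invariants on modules of finite projective dimension. -/
def S_CLAIM : Prop :=
  ∀ (P B X G : Type) [CommRing P] [IsNoetherianRing P] [CommRing B] [Algebra P B]
    [AddCommGroup G] (ev : X → B →+* ℂ) (φ : AddInv B G),
    (∀ I : Ideal B, (∀ x, ∃ f ∈ I, ev x f ≠ 0) → I = ⊤) →
    (∀ (Q : Type) [AddCommGroup Q] [Module P Q], Module.Finite P Q → Module.Projective P Q →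
      ∃ ρ : ℤ, ∀ (E : Type) [AddCommGroup E] [Module B E], Module.Finite B E →
        Module.Projective B E → φ.val (E ⊗[B] (B ⊗[P] Q)) = ρ • φ.val E) →
    ∀ (n : ℕ) (S : Type) [AddCommGroup S] [Module P S], HasPD P n S → Module.Finite P S →
      ProjAlong P ev S →
      ∃ ρ : ℤ, ∀ (E : Type) [AddCommGroup E] [Module B E], Module.Finite B E →
        Module.Projective B E → φ.val (E ⊗[B] (B ⊗[P] S)) = ρ • φ.val E

/-- The kernel module `ℓ` of `B ⊗ ker π → B^m` for a presentation `π : P^m → J` of a module `J`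
with projective base change. -/
def S_ELL : Prop :=
  ∀ (P B G : Type) [CommRing P] [CommRing B] [Algebra P B] [AddCommGroup G] (φ : AddInv B G)
    (J : Type) [AddCommGroup J] [Module P J] (m : ℕ) (π : (Fin m → P) →ₗ[P] J),
    Function.Surjective π →
    Module.Finite B (B ⊗[P] J) → Module.Projective B (B ⊗[P] J) →
    Module.Finite B (B ⊗[P] (LinearMap.ker π)) → Module.Projective B (B ⊗[P] (LinearMap.ker π)) →
    ∃ (ℓ : Type) (_ : AddCommGroup ℓ) (_ : Module B ℓ), Module.Finite B ℓ ∧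
      Module.Projective B ℓ ∧
      ∀ (E : Type) [AddCommGroup E] [Module B E], Module.Finite B E → Module.Projective B E →
        φ.val (E ⊗[B] ℓ) + (m : ℤ) • φ.val E =
          φ.val (E ⊗[B] (B ⊗[P] (LinearMap.ker π))) + φ.val (E ⊗[B] (B ⊗[P] J))

/-- The algebra structure on `BB` given by a map `κ : T⁴ → ℂ⁸`. -/
@[reducible] def algK (κ : Fin 8 → BB) : Algebra (MvPolynomial (Fin 8) ℂ) BB :=
  (MvPolynomial.aeval κ : MvPolynomial (Fin 8) ℂ →ₐ[ℂ] BB).toRingHom.toAlgebra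

/-- Contraction: f.g. projective modules over the polynomial ring. -/
def S_CONTR : Prop :=
  ∀ (κ : Fin 8 → BB) (φ : AddInv BB (ℂ × BB)),
    (∀ (n : Type) [Fintype n] [DecidableEq n] (e : Matrix n n BB),
      e * e = e → φ.val (LinearMap.range (Matrix.toLin' e)) = (Phi e, e.trace)) →
    letI := algK κ
    ∀ (Q : Type) [AddCommGroup Q] [Module (MvPolynomial (Fin 8) ℂ) Q],
      Module.Finite (MvPolynomial (Fin 8) ℂ) Q → Module.Projective (MvPolynomial (Fin 8) ℂ) Q →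
      ∃ ρ : ℤ, ∀ (E : Type) [AddCommGroup E] [Module BB E], Module.Finite BB E →
        Module.Projective BB E →
        φ.val (E ⊗[BB] (BB ⊗[MvPolynomial (Fin 8) ℂ] Q)) = ρ • φ.val E

/-- Local structure of the kernel of a presentation of an ideal which is generated by two
elements after inverting `e`. -/
def S_FACT : Prop :=
  ∀ (P : Type) [CommRing P] [IsDomain P] [UniqueFactorizationMonoid P] (J : Ideal P)
    (F₁ F₂ e : P), F₁ ∈ J → F₂ ∈ J → F₁ ≠ 0 → (∀ F ∈ J, e * F ∈ Ideal.span {F₁, F₂}) →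
    ∀ (m : ℕ) (π : (Fin m → P) →ₗ[P] J), Function.Surjective π →
      ∃ (α : LinearMap.ker π →ₗ[P] (Fin (m + 1) → P))
        (β : (Fin (m + 1) → P) →ₗ[P] LinearMap.ker π),
        β ∘ₗ α = e • (LinearMap.id : LinearMap.ker π →ₗ[P] LinearMap.ker π) ∧
        (LinearMap.toMatrix' (α ∘ₗ β)).trace = e * ((m : P) - 1)

/-- Trace of the idempotent of a module acting through a free module. -/
def S_TRFACT : Prop :=
  ∀ (P B : Type) [CommRing P] [CommRing B] [Algebra P B] (S : Type) [AddCommGroup S] [Module P S]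
    (N m : ℕ) (s : Matrix (Fin N) (Fin N) B) (e : P),
    s * s = s → ((B ⊗[P] S) ≃ₗ[B] LinearMap.range (Matrix.toLin' s)) →
    ∀ (α : S →ₗ[P] (Fin m → P)) (β : (Fin m → P) →ₗ[P] S),
      β ∘ₗ α = e • (LinearMap.id : S →ₗ[P] S) →
      algebraMap P B (LinearMap.toMatrix' (α ∘ₗ β)).trace = algebraMap P B e * s.trace

/-- The data of the algebraic theorem. -/
structure AlgData (q : Type) [Fintype q] (p : Matrix q q BB) where
  /-- the torus in `ℂ⁸` -/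
  κ : Fin 8 → BB
  /-- the ideal -/
  J : Ideal (MvPolynomial (Fin 8) ℂ)
  /-- the conormal map -/
  ν : J → (q → BB)
  add : ∀ F G, ν (F + G) = ν F + ν G
  smul : ∀ (h : MvPolynomial (Fin 8) ℂ) (F : J), ν (h • F) = (MvPolynomial.aeval κ h : BB) • ν F
  mem : ∀ F, p *ᵥ (ν F) = ν F
  loc : ∀ x : Ang, ∃ F₁ F₂ : J,
    LinearIndependent ℂ ![fun i => evx x (ν F₁ i), fun i => evx x (ν F₂ i)] ∧
    ∃ e : MvPolynomial (Fin 8) ℂ, evx x (MvPolynomial.aeval κ e) ≠ 0 ∧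
      ∀ F : J, e * (F : MvPolynomial (Fin 8) ℂ) ∈
        Ideal.span {(F₁ : MvPolynomial (Fin 8) ℂ), (F₂ : MvPolynomial (Fin 8) ℂ)}

/-- The conormal module is the range of `p`. -/
def S_THETA : Prop :=
  ∀ (q : Type) [Fintype q] [DecidableEq q] (p : Matrix q q BB), p * p = p → p.trace = 2 →
    ∀ A : AlgData q p, letI := algK A.κ
    Nonempty ((BB ⊗[MvPolynomial (Fin 8) ℂ] A.J) ≃ₗ[BB] LinearMap.range (Matrix.toLin' p))

/-- The algebraic theorem: a symmetric projector carrying `AlgData` has number zero. -/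
def S_ALG : Prop :=
  ∀ (q : Type) [Fintype q] [DecidableEq q] (p : Matrix q q BB), p * p = p → pᵀ = p →
    p.trace = 2 → AlgData q p → Phi p = 0

/-! ### Group C: jets and the ideal of `Z` -/

/-- Complex gradient of a polynomial in 8 variables. -/
def cgrad (F : MvPolynomial (Fin 8) ℂ) (z : Fin 8 → ℂ) : Fin 8 → ℂ :=
  fun l => MvPolynomial.eval z (MvPolynomial.pderiv l F)

/-- The jet lemma. -/
def S_JET : Prop :=
  ∀ (J : Ideal (MvPolynomial (Fin 8) ℂ)) (ψ : (Fin 6 → ℝ) → (Fin 8 → ℂ)),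
    ContDiffAt ℝ ∞ ψ 0 →
    (∀ᶠ u in 𝓝 (0 : Fin 6 → ℝ), ∀ F ∈ J, MvPolynomial.eval (ψ u) F = 0) →
    LinearIndependent ℂ (fun k : Fin 6 => fderiv ℝ ψ 0 (Pi.single k 1)) →
    ∀ F₁ ∈ J, ∀ F₂ ∈ J, LinearIndependent ℂ ![cgrad F₁ (ψ 0), cgrad F₂ (ψ 0)] →
    ∃ e : MvPolynomial (Fin 8) ℂ, MvPolynomial.eval (ψ 0) e ≠ 0 ∧
      ∀ F ∈ J, e * F ∈ Ideal.span {F₁, F₂}

/-- The unit `(∏ x_j)(1 + |y|²)`. -/
def uu (z : Idx → ℝ) : ℂ :=
  (∏ j : Fin 4, ((cc z j : ℂ) + (ss z j : ℂ) * Complex.I)) *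
    (1 + ∑ k : Fin 4, ((vv z k / (1 + ww z 4) : ℝ) : ℂ) ^ 2)

/-- Real polynomials on `ℝ¹³` become, up to a unit, complex polynomials in the chart. -/
def S_POLY : Prop :=
  ∀ Q : MvPolynomial Idx ℝ, ∃ (d : ℕ) (F : MvPolynomial (Fin 8) ℂ), ∀ z ∈ VV, 1 + ww z 4 ≠ 0 →
    MvPolynomial.eval (Psi z) F = uu z ^ d * (MvPolynomial.eval z Q : ℂ)

/-- The vanishing ideal of the chart part of `Z` in `ℂ[X₁..X₈]`. -/
def JJ (Z : Set (Idx → ℝ)) : Ideal (MvPolynomial (Fin 8) ℂ) where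
  carrier := {F | ∀ z ∈ Z, 1 + ww z 4 ≠ 0 → MvPolynomial.eval (Psi z) F = 0}
  add_mem' := by
    intro a b ha hb z hz h
    simp [ha z hz h, hb z hz h]
  zero_mem' := by
    intro z hz h
    simp
  smul_mem' := by
    intro c a ha z hz h
    simp [ha z hz h]

/-- The function on `ℝ¹³` of a polynomial in the chart. -/
def GF (F : MvPolynomial (Fin 8) ℂ) (z : Idx → ℝ) : ℂ := MvPolynomial.eval (Psi z) F

/-- The normal gradient of `F` along `K`. -/
def nuF {Z : Set (Idx → ℝ)} (T : TData Z) (F : MvPolynomial (Fin 8) ℂ) (i : Idx) (x : Ang) : ℂ :=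
  ∑ i', (T.p x i i' : ℂ) * fderiv ℝ (GF F) (T.K x) (Pi.single i' 1)

/-- Smoothness and periodicity of the normal gradient and of the chart of `K`. -/
def S_NUSM : Prop :=
  ∀ (Z : Set (Idx → ℝ)) (T : TData Z),
    (∀ (F : MvPolynomial (Fin 8) ℂ) (i : Idx), ContDiff ℝ ∞ (nuF T F i) ∧
      ∀ (x : Ang) (k : Fin 4), nuF T F i (x + Pi.single k (2 * Real.pi)) = nuF T F i x) ∧
    (∀ l : Fin 8, ContDiff ℝ ∞ (fun x => Psi (T.K x) l) ∧
      ∀ (x : Ang) (k : Fin 4), Psi (T.K (x + Pi.single k (2 * Real.pi))) l = Psi (T.K x) l)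

/-- The chart is totally real on the tangent spaces of `V`: real-independent tangent vectors of `V`
become `ℂ`-independent. -/
def S_TOT : Prop :=
  ∀ z ∈ VV, 1 + ww z 4 ≠ 0 → ContDiffAt ℝ ∞ Psi z ∧
    ∀ (m : ℕ) (v : Fin m → (Idx → ℝ)), (∀ k j, norC z j ⬝ᵥ v k = 0) → (∀ k, norS z ⬝ᵥ v k = 0) →
      LinearIndependent ℝ v → LinearIndependent ℂ (fun k => fderiv ℝ Psi z (v k))

/-- Two polynomials of the ideal with independent normal gradients. -/
def S_TWO : Prop :=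
  ∀ (Z : Set (Idx → ℝ)) (T : TData Z), (∀ z ∈ Z, NonsingAt Z 6 z) → ∀ x : Ang,
    ∃ F₁ ∈ JJ Z, ∃ F₂ ∈ JJ Z,
      LinearIndependent ℂ ![fun i => nuF T F₁ i x, fun i => nuF T F₂ i x] ∧
      LinearIndependent ℂ ![cgrad F₁ (Psi (T.K x)), cgrad F₂ (Psi (T.K x))]

/-- From tangential data along a torus in a nonsingular `Z` to algebraic data. -/
def S_GEO2 : Prop :=
  ∀ (Z : Set (Idx → ℝ)) (T : TData Z), (∀ z ∈ Z, NonsingAt Z 6 z) →
    Nonempty (AlgData Idx (mB T.p T.psm))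

/-! ### Group D: geometry -/

/-- The Gram projector onto the range of a matrix which is injective on the range of a
projector. -/
def S_GRAM : Prop :=
  ∀ (ι κ : Type) [Fintype ι] [DecidableEq ι] [Fintype κ] [DecidableEq κ] (D : Matrix ι κ ℝ)
    (ε : Matrix κ κ ℝ), εᵀ = ε → ε * ε = ε → D * ε = D →
    (∀ v, ε *ᵥ v = v → D *ᵥ v = 0 → v = 0) →
    (Dᵀ * D + (1 - ε)).det ≠ 0 ∧
    (D * (Dᵀ * D + (1 - ε))⁻¹ * Dᵀ)ᵀ = D * (Dᵀ * D + (1 - ε))⁻¹ * Dᵀ ∧
    (D * (Dᵀ * D + (1 - ε))⁻¹ * Dᵀ) * (D * (Dᵀ * D + (1 - ε))⁻¹ * Dᵀ) =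
      D * (Dᵀ * D + (1 - ε))⁻¹ * Dᵀ ∧
    (D * (Dᵀ * D + (1 - ε))⁻¹ * Dᵀ) * D = D ∧
    (D * (Dᵀ * D + (1 - ε))⁻¹ * Dᵀ).trace = ε.trace

/-- The parameters `(x + u_l, u_r)`. -/
def uL (u : Fin 8 → ℝ) : Ang := fun j => u ⟨j.1, by omega⟩
/-- The parameters `(x + u_l, u_r)`. -/
def uR (u : Fin 8 → ℝ) : Fin 4 → ℝ := fun j => u ⟨j.1 + 4, by omega⟩

/-- The parametrisation of `M` near the torus `kk`. -/
def S_MU : Prop :=
  ∃ μ : Ang → (Fin 4 → ℝ) → (Idx → ℝ),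
    ContDiff ℝ ∞ (fun q : Ang × (Fin 4 → ℝ) => μ q.1 q.2) ∧
    (∀ x v, μ x v ∈ MM) ∧ (∀ x, μ x 0 = kk x) ∧
    (∀ (x : Ang) (k : Fin 4) v, μ (x + Pi.single k (2 * Real.pi)) v = μ x v) ∧
    (∀ x v, μ x ((1 - pL x) *ᵥ v) = μ x v) ∧
    (∀ x u, fderiv ℝ (fun u : Fin 8 → ℝ => μ (x + uL u) (uR u)) 0 u =
      Sum.elim (fun j => -Real.sin (x j) * uL u j) (Sum.elim (fun j => Real.cos (x j) * uL u j)
        (fun k => if h : k.1 < 4 then 2 * ((1 - pL x) *ᵥ uR u) ⟨k.1, h⟩ else 0)))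

/-- Smooth families of normal projectors. -/
def S_FAM : Prop :=
  ∀ (Ψ : ℝ → Ang → (Fin 8 → ℝ) → (Idx → ℝ)) (ε : Ang → Matrix (Fin 8) (Fin 8) ℝ),
    ContDiff ℝ ∞ (fun q : ℝ × Ang × (Fin 8 → ℝ) => Ψ q.1 q.2.1 q.2.2) →
    (∀ t (x : Ang) (k : Fin 4) u, Ψ t (x + Pi.single k (2 * Real.pi)) u = Ψ t x u) →
    (∀ t x u, Ψ t x u ∈ VV) →
    (∀ i j, SmPer (fun x => ε x i j)) → (∀ x, (ε x)ᵀ = ε x) → (∀ x, ε x * ε x = ε x) →
    (∀ x, (ε x).trace = 6) →
    (∀ t x u, fderiv ℝ (Ψ t x) 0 (ε x *ᵥ u) = fderiv ℝ (Ψ t x) 0 u) →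
    (∀ t x u, ε x *ᵥ u = u → fderiv ℝ (Ψ t x) 0 u = 0 → u = 0) →
    ∃ p : ℝ → Ang → Matrix Idx Idx ℝ,
      (∀ i j, ContDiff ℝ ∞ (fun q : ℝ × Ang => p q.1 q.2 i j)) ∧
      (∀ t (x : Ang) (k : Fin 4), p t (x + Pi.single k (2 * Real.pi)) = p t x) ∧
      (∀ t x, (p t x)ᵀ = p t x) ∧ (∀ t x, p t x * p t x = p t x) ∧
      (∀ t x, (p t x).trace = 2) ∧
      (∀ t x u, p t x *ᵥ (fderiv ℝ (Ψ t x) 0 u) = 0) ∧
      (∀ t x j, p t x *ᵥ norC (Ψ t x 0) j = 0) ∧ (∀ t x, p t x *ᵥ norS (Ψ t x 0) = 0) ∧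
      (∀ t x, Module.finrank ℝ (LinearMap.range (fderiv ℝ (Ψ t x) 0).toLinearMap) = 6) ∧
      (∀ t x (q : Matrix Idx Idx ℝ), qᵀ = q → q * q = q → q.trace = 2 →
        (∀ u, q *ᵥ (fderiv ℝ (Ψ t x) 0 u) = 0) → (∀ j, q *ᵥ norC (Ψ t x 0) j = 0) →
        q *ᵥ norS (Ψ t x 0) = 0 → q = p t x)

/-- From an isotopy to tangential data. -/
def S_GEO1 : Prop :=
  ∀ H, SmoothIsotopyIn VV MM H →
    (∀ x ∈ MM, ∀ t ∈ Set.Icc (0 : ℝ) 1, dist (H x t) x < 1) →
    ∀ h : (∀ i j, SmPer (fun x => pL x i j)),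
    ∃ T : TData ((fun x => H x 1) '' MM), Phi (mB T.p T.psm) = Phi (mB pL h)

/-- Smoothness of the root function and of the example. -/
def S_ROOT : Prop :=
  ContDiff ℝ ∞ rootF ∧ (∀ y t : ℝ, t ^ 3 + 4 * t = y → t = rootF y) ∧
  (∀ c₁ s₁ c₂ s₂ t : ℝ, 0 < Nn c₁ s₁ c₂ s₂ t) ∧
  (∀ c₁ s₁ c₂ s₂ t : ℝ, c₁ ^ 2 + s₁ ^ 2 = 1 → c₂ ^ 2 + s₂ ^ 2 = 1 →
    t ^ 3 + 4 * t = gg c₁ s₁ c₂ s₂ →
    ∑ i, bv c₁ s₁ c₂ s₂ t i ^ 2 = Nn c₁ s₁ c₂ s₂ t ^ 2)

/-- Algebra of the quaternion matrices. -/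
def S_QUAT : Prop :=
  ∀ (a b : Fin 3 → ℝ), ∑ i, a i ^ 2 = 1 → ∑ i, b i ^ 2 = 1 →
    LL a * LL a = -1 ∧ RR b * RR b = -1 ∧ LL a * RR b = RR b * LL a ∧
    (LL a)ᵀ = -LL a ∧ (RR b)ᵀ = -RR b ∧
    pR a b * pR a b = pR a b ∧ (pR a b)ᵀ = pR a b ∧ (pR a b).trace = 2 ∧
    (∀ v : Fin 4 → ℝ, (LL a + RR b) *ᵥ v = 0 ↔ pR a b *ᵥ v = 0)

/-- The projector family of the example is smooth and periodic. -/
def S_PLSM : Prop := ∀ i j, SmPer (fun x => pL x i j)

/-- The Nash map is a smooth periodic map to the sphere. -/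
def S_PERM : Prop := ∃ α : PerMap, ∀ θ φ, α.f θ φ = aA θ φ

/-- The area density of a map of two angles. -/
def wA (α : ℝ → ℝ → Fin 3 → ℝ) (θ φ : ℝ) : ℝ :=
  α θ φ ⬝ᵥ (crossProduct (deriv (fun t => α t φ) θ) (deriv (fun t => α θ t) φ))

/-- The area of a map of two angles (`4π` times the degree). -/
def DD (α : ℝ → ℝ → Fin 3 → ℝ) : ℝ :=
  ∫ θ in (0 : ℝ)..(2 * Real.pi), ∫ φ in (0 : ℝ)..(2 * Real.pi), wA α θ φ

/-- The number of a product projector. -/
def S_PROD : Prop :=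
  ∀ (α β : PerMap) (h : ∀ i j, SmPer (fun x => pR (α.f (x 0) (x 1)) (β.f (x 2) (x 3)) i j)),
    Phi (mB (fun x => pR (α.f (x 0) (x 1)) (β.f (x 2) (x 3))) h) =
      ((DD α.f * DD β.f : ℝ) : ℂ)

/-- An explicit map of nonzero area, nowhere antipodal to the Nash map. -/
def S_A0 : Prop :=
  ∃ α : PerMap, DD α.f ≠ 0 ∧ ∀ θ φ, α.f θ φ + aA θ φ ≠ 0

/-- The number of the example does not vanish. -/
def S_PHI : Prop := ∀ h : (∀ i j, SmPer (fun x => pL x i j)), Phi (mB pL h) ≠ 0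

/-- `V` is a nonsingular variety. -/
def S_V : Prop := NonsingVariety VV 8

/-- `M` is a compact smooth submanifold. -/
def S_M : Prop := IsCompact MM ∧ SmoothSubmanifold MM 6

/-- `W` is a compact nonsingular variety. -/
def S_W : Prop := IsCompact WW ∧ NonsingVariety WW 6

/-- `gW` is a smooth embedding of `W` with image `M`. -/
def S_G : Prop := EmbeddingOn gW WW ∧ gW '' WW = MM

/-- A smooth embedding of a compact manifold with image `M` is bordant to the inclusion. -/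
def S_CYL : Prop :=
  ∀ {ι κ : Type} [Fintype ι] [Fintype κ] (V M : Set (ι → ℝ)) (W : Set (κ → ℝ))
    (g : (κ → ℝ) → (ι → ℝ)) (n : ℕ), IsCompact M → SmoothSubmanifold M n → M ⊆ V →
    EmbeddingOn g W → g '' W = M → Bordant V n M id W g

/-- The final theorem. -/
def S_FINAL : Prop :=
  NonsingVariety VV 8 ∧ IsCompact MM ∧ SmoothSubmanifold MM 6 ∧ MM ⊆ VV ∧
  AlgebraicBordismClass VV 6 MM ∧
  ∀ H, SmoothIsotopyIn VV MM H →
    (∀ x ∈ MM, ∀ t ∈ Set.Icc (0 : ℝ) 1, dist (H x t) x < 1) →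
    ¬ NonsingLocClosed ((fun x => H x 1) '' MM) 6

end

end Pool.Agent.Helper40.AC
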